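import Mathlib

set_option autoImplicit false

namespace Pool.Agent.Results.MP_665821_co.NonTransitive

/-- A `q`-edge-coloured tournament on the vertex set `Fin N`. -/
structure ColTournament (q N : ℕ) where
  /-- `arc u v`: the edge `uv` is directed from `u` to `v`. -/
  arc : Fin N → Fin N → Prop
  irrefl : ∀ u, ¬ arc u u
  total : ∀ u v, u ≠ v → (arc u v ↔ ¬ arc v u)
  /-- the colour of the edge `uv`. -/
  col : Fin N → Fin N → Fin q
  col_symm : ∀ u v, col u v = col v u

/-- `T` is transitive: it is isomorphic (as a tournament) to the tournament on `[N]` in which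
`a → b` exactly when `a < b`. -/
def ColTournament.Transitive {q N : ℕ} (T : ColTournament q N) : Prop :=
  ∃ e : Fin N ≃ Fin N, ∀ u v, T.arc u v ↔ e u < e v

/-- `T` is a colouring of the standard transitive tournament `a → b ↔ a < b`. -/
def ColTournament.Standard {q N : ℕ} (T : ColTournament q N) : Prop :=
  ∀ u v, T.arc u v ↔ u < v

/-- `l` is a colour-avoiding directed path: distinct vertices, consecutive ones joined by arcs, and
some colour `c` is not used by its edges. -/
def ColTournament.AvoidingPath {q N : ℕ} (T : ColTournament q N) (l : List (Fin N)) : Prop :=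
  l.Nodup ∧ ∃ c : Fin q, l.IsChain (fun u v => T.arc u v ∧ T.col u v ≠ c)

/-- the largest number of vertices of a colour-avoiding directed path. -/
noncomputable def ColTournament.longest {q N : ℕ} (T : ColTournament q N) : ℕ :=
  sSup {m | ∃ l : List (Fin N), T.AvoidingPath l ∧ l.length = m}

/-- `f_{q,q-1}(N)`. -/
noncomputable def f (q N : ℕ) : ℕ :=
  sInf {m | ∃ T : ColTournament q N, T.Standard ∧ T.longest = m}

/-- `g_{q,q-1}(N)`. -/
noncomputable def g (q N : ℕ) : ℕ :=
  sInf {m | ∃ T : ColTournament q N, T.longest = m}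

/-! ### the search -/

structure V where
  a : ℕ
  b : ℕ
  c : ℕ
  d : ℕ

def V.R (x y : V) : Bool :=
  (Nat.blt x.a y.a && Nat.blt x.b y.b && (Nat.blt x.c y.c || Nat.blt x.d y.d)) ||
  (Nat.blt x.c y.c && Nat.blt x.d y.d && (Nat.blt x.a y.a || Nat.blt x.b y.b))

def V.le (x y : V) : Bool :=
  Nat.ble x.a y.a && Nat.ble x.b y.b && Nat.ble x.c y.c && Nat.ble x.d y.d

def V.ok (x : V) : Bool :=
  Nat.ble x.a 6 && Nat.ble x.b 6 && Nat.ble x.c 6 && Nat.ble x.d 6

def insMin (z : V) (M : List V) : List V :=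
  if M.any (fun m => m.le z) then M else z :: M.filter (fun m => !(z.le m))

def insOk (z : V) (M : List V) : List V :=
  if z.ok then insMin z M else M

def mx (x y : ℕ) : ℕ := if Nat.ble x y then y else x

def alts (y z : V) (M : List V) : List V :=
  if y.R z then insMin z M else
    let A := mx z.a (y.a + 1)
    let B := mx z.b (y.b + 1)
    let C := mx z.c (y.c + 1)
    let D := mx z.d (y.d + 1)
    insOk ⟨z.a, B, C, D⟩ (insOk ⟨A, z.b, C, D⟩ (insOk ⟨A, B, z.c, D⟩ (insOk ⟨A, B, C, z.d⟩ M)))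

def step (y : V) (L : List V) : List V := L.foldr (fun z M => alts y z M) []

def sw0 (e : Bool) (y : V) : V := if e && Nat.blt y.b y.a then ⟨y.b, y.a, y.c, y.d⟩ else y
def sw1 (e : Bool) (y : V) : V := if e && Nat.blt y.c y.b then ⟨y.a, y.c, y.b, y.d⟩ else y
def sw2 (e : Bool) (y : V) : V := if e && Nat.blt y.d y.c then ⟨y.a, y.b, y.d, y.c⟩ else y

def norm (e0 e1 e2 : Bool) (y : V) : V :=
  sw0 e0 (sw1 e1 (sw0 e0 (sw2 e2 (sw1 e1 (sw0 e0 y)))))

def normL (e0 e1 e2 : Bool) (L : List V) : List V :=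
  L.foldr (fun z M => insMin (norm e0 e1 e2 z) M) []

def search : ℕ → Bool → Bool → Bool → List V → Bool
  | 0, _, _, _, _ => false
  | k + 1, e0, e1, e2, L => (normL e0 e1 e2 L).all fun y =>
      search k (e0 && Nat.beq y.a y.b) (e1 && Nat.beq y.b y.c) (e2 && Nat.beq y.c y.d) (step y L)

/-! ### soundness of the search -/

theorem le_iff (x y : V) : x.le y = true ↔ x.a ≤ y.a ∧ x.b ≤ y.b ∧ x.c ≤ y.c ∧ x.d ≤ y.d := by
  simp [V.le, and_assoc]

theorem R_iff (x y : V) : x.R y = true ↔
    ((x.a < y.a ∧ x.b < y.b ∧ (x.c < y.c ∨ x.d < y.d)) ∨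
      (x.c < y.c ∧ x.d < y.d ∧ (x.a < y.a ∨ x.b < y.b))) := by
  simp [V.R, and_assoc]

theorem ok_iff (x : V) : x.ok = true ↔ x.a ≤ 6 ∧ x.b ≤ 6 ∧ x.c ≤ 6 ∧ x.d ≤ 6 := by
  simp [V.ok, and_assoc]

def Cov (L : List V) (t : V) : Prop := ∃ m ∈ L, m.le t = true

theorem le_trans' {x y z : V} (h1 : x.le y = true) (h2 : y.le z = true) : x.le z = true := by
  rw [le_iff] at *
  omega

theorem insMin_cov (z : V) (M : List V) (t : V) (h : z.le t = true ∨ Cov M t) :
    Cov (insMin z M) t := by
  unfold insMin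
  split_ifs with hM
  · rcases h with h | h
    · rw [List.any_eq_true] at hM
      obtain ⟨m, hm, hm'⟩ := hM
      exact ⟨m, hm, le_trans' hm' h⟩
    · exact h
  · rcases h with h | h
    · exact ⟨z, List.mem_cons_self, h⟩
    · obtain ⟨m, hm, hm'⟩ := h
      by_cases hz : z.le m = true
      · exact ⟨z, List.mem_cons_self, le_trans' hz hm'⟩
      · refine ⟨m, List.mem_cons_of_mem _ ?_, hm'⟩
        rw [List.mem_filter]
        exact ⟨hm, by simpa using hz⟩

theorem insOk_cov (z : V) (M : List V) (t : V) (ht : t.ok = true) (h : z.le t = true ∨ Cov M t) :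
    Cov (insOk z M) t := by
  unfold insOk
  split_ifs with hz
  · exact insMin_cov z M t h
  · rcases h with h | h
    · exfalso
      apply hz
      rw [ok_iff] at *
      rw [le_iff] at h
      omega
    · exact h

theorem mx_eq (x y : ℕ) : mx x y = max x y := by
  unfold mx
  split_ifs with h
  · simp at h
    omega
  · simp at h
    omega

theorem alts_cov (y z : V) (M : List V) (t : V) (ht : t.ok = true) (hR : y.R t = true)
    (h : z.le t = true ∨ Cov M t) : Cov (alts y z M) t := by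
  unfold alts
  split_ifs with hz
  · exact insMin_cov z M t h
  · rcases h with h | h
    · rw [le_iff] at h
      rw [R_iff] at hR
      have h4 : (z.a ≤ t.a ∧ mx z.b (y.b + 1) ≤ t.b ∧ mx z.c (y.c + 1) ≤ t.c ∧
            mx z.d (y.d + 1) ≤ t.d) ∨
          (mx z.a (y.a + 1) ≤ t.a ∧ z.b ≤ t.b ∧ mx z.c (y.c + 1) ≤ t.c ∧
            mx z.d (y.d + 1) ≤ t.d) ∨
          (mx z.a (y.a + 1) ≤ t.a ∧ mx z.b (y.b + 1) ≤ t.b ∧ z.c ≤ t.c ∧
            mx z.d (y.d + 1) ≤ t.d) ∨
          (mx z.a (y.a + 1) ≤ t.a ∧ mx z.b (y.b + 1) ≤ t.b ∧ mx z.c (y.c + 1) ≤ t.c ∧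
            z.d ≤ t.d) := by
        simp only [mx_eq]
        omega
      rcases h4 with h4 | h4 | h4 | h4
      · exact insOk_cov _ _ _ ht (Or.inl ((le_iff _ _).2 h4))
      · exact insOk_cov _ _ _ ht (Or.inr (insOk_cov _ _ _ ht (Or.inl ((le_iff _ _).2 h4))))
      · exact insOk_cov _ _ _ ht (Or.inr (insOk_cov _ _ _ ht (Or.inr
          (insOk_cov _ _ _ ht (Or.inl ((le_iff _ _).2 h4))))))
      · exact insOk_cov _ _ _ ht (Or.inr (insOk_cov _ _ _ ht (Or.inr
          (insOk_cov _ _ _ ht (Or.inr (insOk_cov _ _ _ ht (Or.inl ((le_iff _ _).2 h4))))))))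
    · exact insOk_cov _ _ _ ht (Or.inr (insOk_cov _ _ _ ht (Or.inr
          (insOk_cov _ _ _ ht (Or.inr (insOk_cov _ _ _ ht (Or.inr h)))))))

theorem step_cov (y : V) (L : List V) (t : V) (ht : t.ok = true) (hR : y.R t = true)
    (h : Cov L t) : Cov (step y L) t := by
  induction L with
  | nil =>
    obtain ⟨m, hm, _⟩ := h
    simp at hm
  | cons z L ih =>
    have : step y (z :: L) = alts y z (step y L) := rfl
    rw [this]
    apply alts_cov y z _ t ht hR
    obtain ⟨m, hm, hm'⟩ := h
    rw [List.mem_cons] at hm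
    rcases hm with rfl | hm
    · exact Or.inl hm'
    · exact Or.inr (ih ⟨m, hm, hm'⟩)

def P (k : ℕ) (Q : V → Prop) : Prop :=
  ∃ ext : List V, ext.length = k ∧ ext.Pairwise (fun x y => x.R y = true) ∧
    ∀ z ∈ ext, z.ok = true ∧ Q z

def s0 (y : V) : V := ⟨y.b, y.a, y.c, y.d⟩
def s1 (y : V) : V := ⟨y.a, y.c, y.b, y.d⟩
def s2 (y : V) : V := ⟨y.a, y.b, y.d, y.c⟩

theorem R_s0 (x y : V) : (s0 x).R (s0 y) = x.R y := by
  rw [Bool.eq_iff_iff, R_iff, R_iff]
  simp only [s0]
  omega

theorem R_s1 (x y : V) : (s1 x).R (s1 y) = x.R y := by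
  rw [Bool.eq_iff_iff, R_iff, R_iff]
  simp only [s1]
  omega

theorem R_s2 (x y : V) : (s2 x).R (s2 y) = x.R y := by
  rw [Bool.eq_iff_iff, R_iff, R_iff]
  simp only [s2]
  omega

theorem ok_s0 (x : V) : (s0 x).ok = x.ok := by
  rw [Bool.eq_iff_iff, ok_iff, ok_iff]
  simp only [s0]
  omega

theorem ok_s1 (x : V) : (s1 x).ok = x.ok := by
  rw [Bool.eq_iff_iff, ok_iff, ok_iff]
  simp only [s1]
  omega

theorem ok_s2 (x : V) : (s2 x).ok = x.ok := by
  rw [Bool.eq_iff_iff, ok_iff, ok_iff]
  simp only [s2]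
  omega

theorem P_map (k : ℕ) (Q : V → Prop) (s : V → V) (hR : ∀ x y, (s x).R (s y) = x.R y)
    (hok : ∀ x, (s x).ok = x.ok) (hQ : ∀ z, Q z → Q (s z)) (y : V)
    (h : P k (fun w => Q w ∧ y.R w = true)) : P k (fun w => Q w ∧ (s y).R w = true) := by
  obtain ⟨ext, h1, h2, h3⟩ := h
  refine ⟨ext.map s, by simpa using h1, ?_, ?_⟩
  · rw [List.pairwise_map]
    exact h2.imp (fun {a b} hab => by rw [hR]; exact hab)
  · intro z hz
    rw [List.mem_map] at hz
    obtain ⟨w, hw, rfl⟩ := hz
    obtain ⟨h4, h5, h6⟩ := h3 w hw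
    exact ⟨by rw [hok]; exact h4, hQ _ h5, by rw [hR]; exact h6⟩

theorem P_sw (k : ℕ) (Q : V → Prop) (e0 e1 e2 : Bool)
    (h0 : e0 = true → ∀ z, Q z → Q (s0 z)) (h1 : e1 = true → ∀ z, Q z → Q (s1 z))
    (h2 : e2 = true → ∀ z, Q z → Q (s2 z)) :
    (∀ y, P k (fun w => Q w ∧ y.R w = true) → P k (fun w => Q w ∧ (sw0 e0 y).R w = true)) ∧
    (∀ y, P k (fun w => Q w ∧ y.R w = true) → P k (fun w => Q w ∧ (sw1 e1 y).R w = true)) ∧
    (∀ y, P k (fun w => Q w ∧ y.R w = true) → P k (fun w => Q w ∧ (sw2 e2 y).R w = true)) := by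
  refine ⟨fun y h => ?_, fun y h => ?_, fun y h => ?_⟩
  · unfold sw0
    split_ifs with he
    · simp only [Bool.and_eq_true] at he
      exact P_map k Q s0 R_s0 ok_s0 (h0 he.1) y h
    · exact h
  · unfold sw1
    split_ifs with he
    · simp only [Bool.and_eq_true] at he
      exact P_map k Q s1 R_s1 ok_s1 (h1 he.1) y h
    · exact h
  · unfold sw2
    split_ifs with he
    · simp only [Bool.and_eq_true] at he
      exact P_map k Q s2 R_s2 ok_s2 (h2 he.1) y h
    · exact h

theorem P_norm (k : ℕ) (Q : V → Prop) (e0 e1 e2 : Bool)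
    (h0 : e0 = true → ∀ z, Q z → Q (s0 z)) (h1 : e1 = true → ∀ z, Q z → Q (s1 z))
    (h2 : e2 = true → ∀ z, Q z → Q (s2 z)) (y : V)
    (h : P k (fun w => Q w ∧ y.R w = true)) :
    P k (fun w => Q w ∧ (norm e0 e1 e2 y).R w = true) := by
  obtain ⟨g0, g1, g2⟩ := P_sw k Q e0 e1 e2 h0 h1 h2
  unfold norm
  exact g0 _ (g1 _ (g0 _ (g2 _ (g1 _ (g0 _ h)))))

theorem normL_cov (e0 e1 e2 : Bool) (L : List V) (y : V) (hy : y ∈ L) :
    Cov (normL e0 e1 e2 L) (norm e0 e1 e2 y) := by
  induction L with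
  | nil => simp at hy
  | cons z L ih =>
    have : normL e0 e1 e2 (z :: L) = insMin (norm e0 e1 e2 z) (normL e0 e1 e2 L) := rfl
    rw [this]
    apply insMin_cov
    rw [List.mem_cons] at hy
    rcases hy with rfl | hy
    · left
      rw [le_iff]
      omega
    · exact Or.inr (ih hy)

theorem R_of_le {x y z : V} (h : x.le y = true) (hR : y.R z = true) : x.R z = true := by
  rw [le_iff] at h
  rw [R_iff] at *
  omega

theorem search_sound (k : ℕ) : ∀ (e0 e1 e2 : Bool) (L : List V) (Q : V → Prop),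
    (e0 = true → ∀ z, Q z → Q (s0 z)) → (e1 = true → ∀ z, Q z → Q (s1 z)) →
    (e2 = true → ∀ z, Q z → Q (s2 z)) → (∀ z, z.ok = true → Q z → Cov L z) →
    search k e0 e1 e2 L = true → ¬ P k Q := by
  induction k with
  | zero =>
    intro e0 e1 e2 L Q _ _ _ _ hs
    simp [search] at hs
  | succ k ih =>
    intro e0 e1 e2 L Q h0 h1 h2 hL hs hP
    rw [search, List.all_eq_true] at hs
    obtain ⟨ext, hlen, hpw, hall⟩ := hP
    cases ext with
    | nil => simp at hlen
    | cons z ext =>
      rw [List.pairwise_cons] at hpw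
      obtain ⟨hz, hQz⟩ := hall z List.mem_cons_self
      obtain ⟨y, hyL, hyz⟩ := hL z hz hQz
      have hP1 : P k (fun w => Q w ∧ y.R w = true) := by
        refine ⟨ext, by simpa using hlen, hpw.2, ?_⟩
        intro w hw
        obtain ⟨h3, h4⟩ := hall w (List.mem_cons_of_mem _ hw)
        exact ⟨h3, h4, R_of_le hyz (hpw.1 w hw)⟩
      have hP2 := P_norm k Q e0 e1 e2 h0 h1 h2 y hP1
      obtain ⟨x, hx, hxy⟩ := normL_cov e0 e1 e2 L y hyL
      have hP3 : P k (fun w => Q w ∧ x.R w = true) := by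
        obtain ⟨ext', h3, h4, h5⟩ := hP2
        refine ⟨ext', h3, h4, fun w hw => ?_⟩
        obtain ⟨h6, h7, h8⟩ := h5 w hw
        exact ⟨h6, h7, R_of_le hxy h8⟩
      refine ih _ _ _ _ (fun w => Q w ∧ x.R w = true) ?_ ?_ ?_ ?_ (hs x hx) hP3
      · intro he w hw
        simp only [Bool.and_eq_true, Nat.beq_eq] at he
        refine ⟨h0 he.1 w hw.1, ?_⟩
        have h9 : s0 x = x := by
          have := he.2
          cases x
          simp only [s0] at *
          simp [this]
        rw [← h9, R_s0]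
        exact hw.2
      · intro he w hw
        simp only [Bool.and_eq_true, Nat.beq_eq] at he
        refine ⟨h1 he.1 w hw.1, ?_⟩
        have h9 : s1 x = x := by
          have := he.2
          cases x
          simp only [s1] at *
          simp [this]
        rw [← h9, R_s1]
        exact hw.2
      · intro he w hw
        simp only [Bool.and_eq_true, Nat.beq_eq] at he
        refine ⟨h2 he.1 w hw.1, ?_⟩
        have h9 : s2 x = x := by
          have := he.2
          cases x
          simp only [s2] at *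
          simp [this]
        rw [← h9, R_s2]
        exact hw.2
      · intro w hw hQw
        exact step_cov x L w hw hQw.2 (hL w hw hQw.1)

theorem search_true : search 10 true true true [⟨1, 1, 1, 1⟩] = true := by decide +kernel

/-- there are no ten vectors in `[6]^4` that are pairwise `3`-increasing. -/
theorem no_ten : ¬ P 10 (fun z => 1 ≤ z.a ∧ 1 ≤ z.b ∧ 1 ≤ z.c ∧ 1 ≤ z.d) := by
  refine search_sound 10 true true true [⟨1, 1, 1, 1⟩] _ ?_ ?_ ?_ ?_ search_true
  · intro _ z hz
    simp only [s0]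
    omega
  · intro _ z hz
    simp only [s1]
    omega
  · intro _ z hz
    simp only [s2]
    omega
  · intro z _ hz
    exact ⟨⟨1, 1, 1, 1⟩, by simp, by rw [le_iff]; exact hz⟩

/-! ### every colouring of the transitive tournament on ten vertices -/

section transitive

variable (T : ColTournament 4 10)

def Sset (c : Fin 4) (v : Fin 10) : Set ℕ :=
  {m | ∃ l : List (Fin 10), (v :: l).IsChain (fun u w => u < w ∧ T.col u w ≠ c) ∧
    l.length + 1 = m}

theorem avoiding_of_chain (hT : T.Standard) (c : Fin 4) (l : List (Fin 10))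
    (h : l.IsChain (fun u w => u < w ∧ T.col u w ≠ c)) : T.AvoidingPath l := by
  refine ⟨?_, c, h.imp (fun {a b} hab => ⟨(hT a b).2 hab.1, hab.2⟩)⟩
  have h1 : l.IsChain (fun u w => u < w) := h.imp (fun {a b} hab => hab.1)
  rw [List.isChain_iff_pairwise] at h1
  exact h1.imp (fun {a b} hab => ne_of_lt hab)

theorem transitive_bound (hT : T.Standard) : ∃ l, T.AvoidingPath l ∧ 7 ≤ l.length := by
  by_contra hcon
  push Not at hcon
  have hb : ∀ c v, ∀ m ∈ Sset T c v, m ≤ 6 := by
    rintro c v m ⟨l, hl, rfl⟩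
    have := hcon _ (avoiding_of_chain T hT c _ hl)
    simp only [List.length_cons] at this
    omega
  have hbd : ∀ c v, BddAbove (Sset T c v) := fun c v => ⟨6, fun m hm => hb c v m hm⟩
  have h1 : ∀ c v, 1 ∈ Sset T c v := fun c v => ⟨[], by simp, rfl⟩
  have hmem : ∀ c v, sSup (Sset T c v) ∈ Sset T c v :=
    fun c v => Nat.sSup_mem ⟨1, h1 c v⟩ (hbd c v)
  have hlt : ∀ c u v, u < v → T.col u v ≠ c → sSup (Sset T c v) < sSup (Sset T c u) := by
    intro c u v huv hc
    obtain ⟨l, hl, hlen⟩ := hmem c v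
    have : sSup (Sset T c v) + 1 ∈ Sset T c u := by
      refine ⟨v :: l, ?_, by simp [hlen]⟩
      rw [List.isChain_cons_cons]
      exact ⟨⟨huv, hc⟩, hl⟩
    exact le_csSup (hbd c u) this
  let x : Fin 10 → V := fun v => ⟨sSup (Sset T 0 v), sSup (Sset T 1 v), sSup (Sset T 2 v),
    sSup (Sset T 3 v)⟩
  apply no_ten
  refine ⟨(List.finRange 10).reverse.map x, by simp, ?_, ?_⟩
  · rw [List.pairwise_map, List.pairwise_reverse]
    refine (List.pairwise_lt_finRange 10).imp (fun {u v} huv => ?_)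
    rw [R_iff]
    simp only [x]
    have e0 := hlt 0 u v huv
    have e1 := hlt 1 u v huv
    have e2 := hlt 2 u v huv
    have e3 := hlt 3 u v huv
    generalize T.col u v = k at *
    fin_cases k <;> simp at e0 e1 e2 e3 ⊢ <;> omega
  · intro z hz
    rw [List.mem_map] at hz
    obtain ⟨v, _, rfl⟩ := hz
    have g1 : ∀ c, 1 ≤ sSup (Sset T c v) := fun c => le_csSup (hbd c v) (h1 c v)
    have g2 : ∀ c, sSup (Sset T c v) ≤ 6 := fun c => hb c v _ (hmem c v)
    exact ⟨(ok_iff _).2 ⟨g2 0, g2 1, g2 2, g2 3⟩, g1 0, g1 1, g1 2, g1 3⟩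

end transitive

/-! ### the non-transitive tournament -/

def tab : ℕ :=
  1164020557192604518386056134279353745026124176351907010940502917193610882735749350803473476

def ent (u v : ℕ) : ℕ := (tab / 8 ^ (10 * u + v)) % 8

def A (u v : Fin 10) : Bool := Nat.blt (ent u v) 4

def C (u v : Fin 10) : Fin 4 :=
  if A u v then Fin.ofNat 4 (ent u v) else Fin.ofNat 4 (ent v u)

def T0 : ColTournament 4 10 where
  arc u v := A u v = true
  irrefl := by decide +kernel
  total := by decide +kernel
  col := C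
  col_symm := by decide +kernel

def EE (c u v : ℕ) : Bool := Nat.blt (ent u v) 4 && !(Nat.beq (ent u v) c)

def badN (c : ℕ) : ℕ → ℕ → List ℕ → Bool
  | 0, _, _ => true
  | k + 1, u, used => [0, 1, 2, 3, 4, 5, 6, 7, 8, 9].any fun v =>
      EE c u v && (used.all fun w => !(Nat.beq w v)) && badN c k v (v :: used)

theorem badN_of (c : Fin 4) (l : List (Fin 10)) : ∀ (u : Fin 10) (used : List ℕ),
    (u :: l).IsChain (fun (u v : Fin 10) => EE c u v = true) → l.Nodup →
    (∀ v ∈ l, v.val ∉ used) → badN c l.length u used = true := by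
  induction l with
  | nil => intro u used _ _ _; rfl
  | cons v l ih =>
    intro u used hc hn hu
    rw [List.isChain_cons_cons] at hc
    rw [List.nodup_cons] at hn
    rw [List.length_cons, badN, List.any_eq_true]
    refine ⟨v.val, ?_, ?_⟩
    · have := v.isLt
      simp only [List.mem_cons, List.not_mem_nil, or_false]
      omega
    · rw [Bool.and_eq_true, Bool.and_eq_true]
      refine ⟨⟨hc.1, ?_⟩, ?_⟩
      · rw [List.all_eq_true]
        intro w hw
        have := hu v List.mem_cons_self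
        simp only [Bool.not_eq_true', ← Bool.not_eq_true, Nat.beq_eq]
        rintro rfl
        exact this hw
      · apply ih v (v.val :: used) hc.2 hn.2
        intro w hw hw'
        rw [List.mem_cons] at hw'
        rcases hw' with hw' | hw'
        · exact hn.1 (Fin.ext hw' ▸ hw)
        · exact hu w (List.mem_cons_of_mem _ hw) hw'

theorem check : ([0, 1, 2, 3].all fun c => [0, 1, 2, 3, 4, 5, 6, 7, 8, 9].all fun u =>
    !(badN c 6 u [u])) = true := by decide +kernel

theorem check_edge : ∀ (c : Fin 4) (u v : Fin 10), (A u v = true ∧ C u v ≠ c) →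
    EE c u v = true := by decide +kernel

theorem T0_bound (l : List (Fin 10)) (h : T0.AvoidingPath l) : l.length ≤ 6 := by
  by_contra hl
  push Not at hl
  obtain ⟨hn, c, hc⟩ := h
  have hn' : (l.take 7).Nodup := hn.sublist (List.take_sublist _ _)
  have hc' : (l.take 7).IsChain (fun (u v : Fin 10) => EE c u v = true) :=
    (hc.take 7).imp (fun {a b} hab => check_edge c a b hab)
  have hl' : (l.take 7).length = 7 := by
    rw [List.length_take]
    omega
  generalize l.take 7 = l' at *
  cases l' with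
  | nil => simp at hl'
  | cons u l' =>
    rw [List.nodup_cons] at hn'
    have h1 := badN_of c l' u [u.val] hc' hn'.2 (by
      intro v hv hv'
      rw [List.mem_singleton] at hv'
      exact hn'.1 (Fin.ext hv' ▸ hv))
    have h2 : l'.length = 6 := by simpa using hl'
    rw [h2] at h1
    have h3 := check
    rw [List.all_eq_true] at h3
    have h4 := h3 c.val (by
      have := c.isLt
      simp only [List.mem_cons, List.not_mem_nil, or_false]
      omega)
    rw [List.all_eq_true] at h4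
    have h5 := h4 u.val (by
      have := u.isLt
      simp only [List.mem_cons, List.not_mem_nil, or_false]
      omega)
    rw [h1] at h5
    simp at h5

theorem T0_cycle : A 1 2 = true ∧ A 2 3 = true ∧ A 3 1 = true := by decide +kernel

theorem T0_nontransitive : ¬ T0.Transitive := by
  rintro ⟨e, he⟩
  obtain ⟨h1, h2, h3⟩ := T0_cycle
  have h1' := (he 1 2).1 h1
  have h2' := (he 2 3).1 h2
  have h3' := (he 3 1).1 h3
  exact absurd (h1'.trans (h2'.trans h3')) (lt_irrefl _)

/-! ### conclusion -/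

theorem le_longest {q N : ℕ} (T : ColTournament q N) (l : List (Fin N)) (h : T.AvoidingPath l) :
    l.length ≤ T.longest := by
  apply le_csSup
  · refine ⟨N, ?_⟩
    rintro m ⟨l', hl', rfl⟩
    simpa using hl'.1.length_le_card
  · exact ⟨l, h, rfl⟩

def Tstd : ColTournament 4 10 where
  arc u v := u < v
  irrefl := fun u => lt_irrefl u
  total := fun _ _ h => ⟨fun h' => not_lt.2 h'.le, fun h' => lt_of_le_of_ne (not_lt.1 h') h⟩
  col := fun _ _ => 0
  col_symm := fun _ _ => rfl

theorem f_ge : 7 ≤ f 4 10 := by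
  have hne : {m | ∃ T : ColTournament 4 10, T.Standard ∧ T.longest = m}.Nonempty :=
    ⟨_, Tstd, fun _ _ => Iff.rfl, rfl⟩
  obtain ⟨T, hT, hm⟩ := Nat.sInf_mem hne
  obtain ⟨l, hl, hlen⟩ := transitive_bound T hT
  have : f 4 10 = T.longest := hm.symm
  rw [this]
  exact hlen.trans (le_longest T l hl)

theorem longest_T0 : T0.longest ≤ 6 := by
  unfold ColTournament.longest
  apply csSup_le
  · exact ⟨0, [], ⟨List.nodup_nil, 0, List.isChain_nil⟩, rfl⟩
  · rintro m ⟨l, hl, rfl⟩
    exact T0_bound l hl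

theorem result :
    (∃ q N : ℕ, 4 ≤ q ∧ ∃ T : ColTournament q N, ¬ T.Transitive ∧ T.longest < f q N) ∧
    g 4 10 < f 4 10 := by
  refine ⟨⟨4, 10, le_refl _, T0, T0_nontransitive, ?_⟩, ?_⟩
  · have := longest_T0
    have := f_ge
    omega
  · have h1 : g 4 10 ≤ T0.longest := Nat.sInf_le ⟨T0, rfl⟩
    have := longest_T0
    have := f_ge
    omega

end Pool.Agent.Results.MP_665821_co.NonTransitive
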